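import Pool.Agent.H20.Lin2

namespace Pool.Agent.Results.MP_7f7a01_al.Half

open Pool.Agent.H20.Lin

theorem result.{u} (K : Type u) [Field K] (ε : ℝ) (h1 : 1 / 4 < ε) (h2 : ε < 1) :
    (∀ (G : Type) [Group G] [Countable G], Approx K G ε ↔ Approx K G (1 / 4)) ↔ ε ≤ 1 / 2 :=
  main ε h1 h2

end Pool.Agent.Results.MP_7f7a01_al.Half
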